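import Pool.Agent.helper12.GN.GN0
import Pool.Agent.helper57.GN.GN6a
import Pool.Agent.helper57.GN.GN6b

/-!
# GNU project, module GN7c: abelian groups of order `w ^ 3` with an automorphism of order `B`
-/

namespace Pool.Agent.helper74.GN

namespace E7c

/-- An integer congruent to `-1` modulo `B`: `B` divides its successor. -/
theorem dvd_succ {B w : ℕ} (hwB : (w : ZMod B) = -1) : B ∣ w + 1 := by
  rw [← ZMod.natCast_eq_zero_iff]
  push_cast
  rw [hwB]
  ring

theorem ne_of {B w : ℕ} (hB : B.Prime) (hwB : (w : ZMod B) = -1) : B ≠ w := by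
  rintro rfl
  have h := dvd_succ hwB
  have h1 : B ∣ 1 := by
    have := (Nat.dvd_add_right (dvd_refl B)).1 h
    exact this
  exact hB.one_lt.ne' (Nat.dvd_one.1 h1)

theorem one_ne_neg_one {B : ℕ} (h3 : 3 < B) : (-1 : ZMod B) ≠ 1 := by
  have : Fact (2 < B) := ⟨by omega⟩
  exact ZMod.neg_one_ne_one

/-- Existence of a root of unity of order `B`. -/
theorem exists_root {B w : ℕ} [Fact w.Prime] (hB : B.Prime) (hwB : (w : ZMod B) = -1) :
    ∃ ζ : (GaloisField w 2)ˣ, orderOf ζ = B := by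
  have : Finite (GaloisField w 2) := inferInstance
  have : Fintype (GaloisField w 2) := Fintype.ofFinite _
  have : DecidableEq (GaloisField w 2) := Classical.decEq _
  have hcard : Nat.card (GaloisField w 2)ˣ = w ^ 2 - 1 := by
    rw [Nat.card_units, GaloisField.card w 2 two_ne_zero]
  have hdvd : B ∣ Nat.card (GaloisField w 2)ˣ := by
    rw [hcard]
    obtain ⟨k, hk⟩ := dvd_succ hwB
    have hw1 : 1 < w := (Fact.out : w.Prime).one_lt
    have : w ^ 2 - 1 = (w + 1) * (w - 1) := by
      have := Nat.sq_sub_sq w 1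
      simpa using this
    rw [this, hk]
    exact ⟨k * (w - 1), by ring⟩
  have : Fact B.Prime := ⟨hB⟩
  exact exists_prime_orderOf_dvd_card' B hdvd

/-- Multiplication by `ζ` on the first component. -/
noncomputable def bet {w : ℕ} [Fact w.Prime] (ζ : (GaloisField w 2)ˣ) :
    MulAut (Multiplicative (GaloisField w 2) × Multiplicative (ZMod w)) :=
  MulEquiv.prodCongr (AddEquiv.toMultiplicative
    (DistribMulAction.toAddEquiv (GaloisField w 2) ζ)) (MulEquiv.refl _)

theorem bet_apply {w : ℕ} [Fact w.Prime] (ζ : (GaloisField w 2)ˣ)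
    (x : Multiplicative (GaloisField w 2) × Multiplicative (ZMod w)) :
    bet ζ x = (Multiplicative.ofAdd ((ζ : GaloisField w 2) * Multiplicative.toAdd x.1), x.2) :=
  rfl

theorem bet_mul {w : ℕ} [Fact w.Prime] (ζ ξ : (GaloisField w 2)ˣ) :
    bet ζ * bet ξ = bet (ζ * ξ) := by
  refine MulEquiv.ext fun x => ?_
  show bet ζ (bet ξ x) = bet (ζ * ξ) x
  simp only [bet_apply, toAdd_ofAdd, Units.val_mul, mul_assoc]

theorem bet_one {w : ℕ} [Fact w.Prime] : bet (1 : (GaloisField w 2)ˣ) = 1 := by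
  refine MulEquiv.ext fun x => ?_
  show bet 1 x = x
  simp [bet_apply]

theorem bet_pow {w : ℕ} [Fact w.Prime] (ζ : (GaloisField w 2)ˣ) (n : ℕ) :
    bet ζ ^ n = bet (ζ ^ n) := by
  induction n with
  | zero => rw [pow_zero, pow_zero, bet_one]
  | succ n ih => rw [pow_succ, ih, bet_mul, pow_succ]

theorem bet_inv {w : ℕ} [Fact w.Prime] (ζ : (GaloisField w 2)ˣ) :
    (bet ζ)⁻¹ = bet ζ⁻¹ := by
  rw [inv_eq_iff_mul_eq_one, bet_mul, mul_inv_cancel, bet_one]

theorem bet_ne_one {w : ℕ} [Fact w.Prime] (ζ : (GaloisField w 2)ˣ) (h : ζ ≠ 1) :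
    bet ζ ≠ 1 := by
  intro h1
  apply h
  have h2 : bet ζ (Multiplicative.ofAdd 1, 1) = (Multiplicative.ofAdd 1, 1) := by
    rw [h1]; rfl
  rw [bet_apply] at h2
  have h3 := congrArg (fun x => Multiplicative.toAdd x.1) h2
  simp only [toAdd_ofAdd, mul_one] at h3
  exact Units.ext h3

/-- The Frobenius as an additive equivalence. -/
noncomputable def frobA (w : ℕ) [Fact w.Prime] : GaloisField w 2 ≃+ GaloisField w 2 :=
  (frobeniusEquiv (GaloisField w 2) w).toAddEquiv

theorem frobA_apply {w : ℕ} [Fact w.Prime] (x : GaloisField w 2) : frobA w x = x ^ w := rfl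

theorem inv_pow_eq {B w : ℕ} [Fact w.Prime] (hwB : (w : ZMod B) = -1) (ζ : (GaloisField w 2)ˣ)
    (h : ζ ^ B = 1) : (ζ⁻¹) ^ w = ζ := by
  have h1 : ζ ^ (w + 1) = 1 := by
    obtain ⟨k, hk⟩ := dvd_succ hwB
    rw [hk, pow_mul, h, one_pow]
  rw [inv_pow, inv_eq_iff_mul_eq_one, ← pow_succ, h1]

theorem exists_inv {B w : ℕ} [Fact w.Prime] (hwB : (w : ZMod B) = -1) (ζ : (GaloisField w 2)ˣ)
    (h : ζ ^ B = 1) :
    ∃ e : (Multiplicative (GaloisField w 2) × Multiplicative (ZMod w)) ≃*
      (Multiplicative (GaloisField w 2) × Multiplicative (ZMod w)),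
      ∀ x, e ((bet ζ)⁻¹ x) = bet ζ (e x) := by
  refine ⟨MulEquiv.prodCongr (AddEquiv.toMultiplicative (frobA w)) (MulEquiv.refl _), ?_⟩
  intro x
  rw [bet_inv]
  show (Multiplicative.ofAdd (frobA w (((ζ⁻¹ : (GaloisField w 2)ˣ) : GaloisField w 2) *
    Multiplicative.toAdd x.1)), x.2) =
    (Multiplicative.ofAdd ((ζ : GaloisField w 2) * (frobA w (Multiplicative.toAdd x.1))), x.2)
  rw [frobA_apply, frobA_apply, mul_pow]
  have h2 := congrArg (fun u : (GaloisField w 2)ˣ => (u : GaloisField w 2)) (inv_pow_eq hwB ζ h)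
  simp only [Units.val_pow_eq_pow_val] at h2
  rw [h2]

theorem val_ne_zero {B : ℕ} (hB : B.Prime) (u : (ZMod B)ˣ) : (u : ZMod B).val ≠ 0 := by
  have : Fact B.Prime := ⟨hB⟩
  rw [Ne, ZMod.val_eq_zero]
  exact u.ne_zero

theorem pow_val_ne_one {B : ℕ} (hB : B.Prime) {G : Type} [Group G] (ζ : G)
    (hζ : orderOf ζ = B) (u : (ZMod B)ˣ) : ζ ^ (u : ZMod B).val ≠ 1 := by
  intro h
  have : NeZero B := ⟨hB.ne_zero⟩
  have h1 := orderOf_dvd_of_pow_eq_one h
  rw [hζ] at h1
  exact val_ne_zero hB u (Nat.eq_zero_of_dvd_of_lt h1 (ZMod.val_lt _))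

theorem unit_eq {B w j : ℕ} (hB : B.Prime) (hwB : (w : ZMod B) = -1) {G : Type} [Group G]
    (ζ : G) (hζ : orderOf ζ = B) (u : (ZMod B)ˣ) (h : ζ = (ζ ^ (u : ZMod B).val) ^ w ^ j) :
    u = 1 ∨ u = -1 := by
  have : Fact B.Prime := ⟨hB⟩
  have h0 : ζ ^ 1 = ζ ^ ((u : ZMod B).val * w ^ j) := by
    rw [pow_one, pow_mul]
    exact h
  rw [pow_inj_mod, hζ] at h0
  have h1 : ((1 : ℕ) : ZMod B) = (((u : ZMod B).val * w ^ j : ℕ) : ZMod B) :=
    (ZMod.natCast_eq_natCast_iff' _ _ _).2 h0
  push_cast at h1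
  rw [ZMod.natCast_zmod_val, hwB] at h1
  rcases neg_one_pow_eq_or (ZMod B) j with hj | hj
  · left
    rw [hj, mul_one] at h1
    exact Units.ext h1.symm
  · right
    rw [hj] at h1
    refine Units.ext ?_
    rw [Units.val_neg, Units.val_one]
    linear_combination h1

theorem unit_cond {B w : ℕ} [Fact w.Prime] (hB : B.Prime) (hwB : (w : ZMod B) = -1)
    (ζ : (GaloisField w 2)ˣ) (hζ : orderOf ζ = B) (u : (ZMod B)ˣ)
    (e : (Multiplicative (GaloisField w 2) × Multiplicative (ZMod w)) ≃*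
      (Multiplicative (GaloisField w 2) × Multiplicative (ZMod w)))
    (he : ∀ x, e ((bet ζ ^ (u : ZMod B).val) x) = bet ζ (e x)) : u = 1 ∨ u = -1 := by
  set ξ : (GaloisField w 2)ˣ := ζ ^ (u : ZMod B).val with hξ
  have hξ1 : ξ ≠ 1 := pow_val_ne_one hB ζ hζ u
  have hξ1' : (ξ : GaloisField w 2) - 1 ≠ 0 := by
    intro h
    exact hξ1 (Units.ext (by rw [Units.val_one]; exact sub_eq_zero.1 h))
  have he' : ∀ x, e (bet ξ x) = bet ζ (e x) := by
    intro x
    rw [← he, bet_pow]
  have h2 : ∀ a : GaloisField w 2, (e (Multiplicative.ofAdd a, 1)).2 = 1 := by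
    intro a
    set x : Multiplicative (GaloisField w 2) × Multiplicative (ZMod w) :=
      (Multiplicative.ofAdd (a / ((ξ : GaloisField w 2) - 1)), 1) with hx
    have h3 : (Multiplicative.ofAdd a, (1 : Multiplicative (ZMod w))) = bet ξ x * x⁻¹ := by
      rw [bet_apply]
      refine Prod.ext ?_ ?_
      · show Multiplicative.ofAdd a = Multiplicative.ofAdd ((ξ : GaloisField w 2) *
          (a / ((ξ : GaloisField w 2) - 1)) + -(a / ((ξ : GaloisField w 2) - 1)))
        congr 1
        field_simp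
        ring
      · simp [hx]
    rw [h3, map_mul, he', map_inv, bet_apply]
    simp
  let f : GaloisField w 2 →+ GaloisField w 2 :=
    { toFun := fun a => Multiplicative.toAdd (e (Multiplicative.ofAdd a, 1)).1
      map_zero' := by
        have : (Multiplicative.ofAdd (0 : GaloisField w 2), (1 : Multiplicative (ZMod w))) = 1 :=
          rfl
        rw [this, map_one]
        rfl
      map_add' := by
        intro a b
        have : (Multiplicative.ofAdd (a + b), (1 : Multiplicative (ZMod w))) =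
            (Multiplicative.ofAdd a, 1) * (Multiplicative.ofAdd b, 1) := by
          refine Prod.ext ?_ ?_
          · rfl
          · simp
        rw [this, map_mul]
        rfl }
  have hfi : Function.Injective f := by
    intro a b hab
    have h4 : e (Multiplicative.ofAdd a, 1) = e (Multiplicative.ofAdd b, 1) := by
      refine Prod.ext ?_ ?_
      · exact Multiplicative.toAdd.injective hab
      · rw [h2, h2]
    have h5 := e.injective h4
    have h6 := congrArg (fun x => Multiplicative.toAdd x.1) h5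
    simpa using h6
  have hfb : Function.Bijective f := Finite.injective_iff_bijective.1 hfi
  have hf : ∀ a, f ((ξ : GaloisField w 2) * a) = (ζ : GaloisField w 2) * f a := by
    intro a
    have h4 := he' (Multiplicative.ofAdd a, 1)
    rw [bet_apply, bet_apply] at h4
    exact congrArg (fun x => Multiplicative.toAdd x.1) h4
  obtain ⟨j, hj⟩ := sing_inj (p := w) (d := 2) (by norm_num) (ξ : GaloisField w 2)
    (ζ : GaloisField w 2) (AddEquiv.ofBijective f hfb) (fun x => hf x)
  refine unit_eq (j := j) hB hwB ζ hζ u ?_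
  refine Units.ext ?_
  rw [Units.val_pow_eq_pow_val, ← hξ]
  exact hj

/-! ### Completeness -/

/-- The fixed subgroup. -/
def fixS {H : Type} [CommGroup H] (b : MulAut H) : Subgroup H where
  carrier := {x | b x = x}
  mul_mem' := by
    intro x y hx hy
    show b (x * y) = x * y
    rw [map_mul]
    exact congrArg₂ (· * ·) hx hy
  one_mem' := map_one b
  inv_mem' := by
    intro x hx
    show b x⁻¹ = x⁻¹
    rw [map_inv]
    exact congrArg (·⁻¹) hx

theorem mem_fixS {H : Type} [CommGroup H] (b : MulAut H) (x : H) : x ∈ fixS b ↔ b x = x :=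
  Iff.rfl

/-- The map `x ↦ x⁻¹ * b x`. -/
def del {H : Type} [CommGroup H] (b : MulAut H) : H →* H where
  toFun x := x⁻¹ * b x
  map_one' := by simp
  map_mul' x y := by
    rw [map_mul, mul_inv]
    exact mul_mul_mul_comm _ _ _ _

theorem del_apply {H : Type} [CommGroup H] (b : MulAut H) (x : H) : del b x = x⁻¹ * b x := rfl

theorem ker_del {H : Type} [CommGroup H] (b : MulAut H) : (del b).ker = fixS b := by
  ext x
  rw [MonoidHom.mem_ker, mem_fixS, del_apply, inv_mul_eq_one, eq_comm]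

theorem card_range {H : Type} [CommGroup H] (b : MulAut H) :
    Nat.card H = Nat.card (del b).range * Nat.card (fixS b) := by
  rw [← ker_del, ← Nat.card_congr (QuotientGroup.quotientKerEquivRange (del b)).toEquiv]
  exact Subgroup.card_eq_card_quotient_mul_card_subgroup _

theorem card_fix {B w : ℕ} (hB : B.Prime) (hw : w.Prime) (h3 : 3 < B)
    (hwB : (w : ZMod B) = -1) (H : Type) [CommGroup H] (hH : Nat.card H = w ^ 3)
    (b : MulAut H) (hb : b ^ B = 1) (hb1 : b ≠ 1) : Nat.card (fixS b) = w := by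
  have hfin : Finite H := Nat.finite_of_card_ne_zero (by
    rw [hH]; exact pow_ne_zero _ hw.ne_zero)
  obtain ⟨i, hi, hcard, hpow⟩ := aut_fix hw hB H hH b hb
  have hcard' : Nat.card (fixS b) = w ^ i := hcard
  rw [hwB] at hpow
  have hne := one_ne_neg_one h3
  interval_cases i
  · exfalso
    apply hne
    simpa [pow_succ] using hpow
  · rw [hcard', pow_one]
  · exfalso
    apply hne
    simpa [pow_succ] using hpow
  · exfalso
    apply hb1
    have htop : fixS b = ⊤ := Subgroup.eq_top_of_card_eq _ (by rw [hcard', hH])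
    refine MulEquiv.ext fun x => ?_
    have : x ∈ fixS b := by rw [htop]; exact Subgroup.mem_top x
    exact this

theorem pow_apply {H : Type} [CommGroup H] (b : MulAut H) (x y : H) (h : b x = x * y)
    (hy : b y = y) (k : ℕ) : (b ^ k) x = x * y ^ k := by
  have hyk : ∀ k : ℕ, (b ^ k) y = y := by
    intro k
    induction k with
    | zero => rfl
    | succ k ih =>
      rw [pow_succ, MulAut.mul_apply, hy, ih]
  induction k with
  | zero => simp
  | succ k ih =>
    rw [pow_succ, MulAut.mul_apply, h, map_mul, ih, hyk, pow_succ, mul_assoc]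

theorem inter {B w : ℕ} (hB : B.Prime) (hw : w.Prime)
    (hwB : (w : ZMod B) = -1) (H : Type) [CommGroup H] (hH : Nat.card H = w ^ 3)
    (b : MulAut H) (hb : b ^ B = 1) (y : H) (hy : y ∈ (del b).range) (hy' : y ∈ fixS b) :
    y = 1 := by
  obtain ⟨x, rfl⟩ := hy
  have h1 : b x = x * del b x := by
    rw [del_apply, mul_inv_cancel_left]
  have h2 := pow_apply b x (del b x) h1 hy' B
  rw [hb, MulAut.one_apply, eq_comm, mul_eq_left] at h2
  have h3 : (del b x) ^ w ^ 3 = 1 := by rw [← hH]; exact pow_card_eq_one'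
  have h4 : Nat.Coprime B (w ^ 3) :=
    ((Nat.coprime_primes hB hw).2 (ne_of hB hwB)).pow_right 3
  have h5 : orderOf (del b x) ∣ 1 := by
    rw [← h4.gcd_eq_one]
    exact Nat.dvd_gcd (orderOf_dvd_of_pow_eq_one h2) (orderOf_dvd_of_pow_eq_one h3)
  exact orderOf_eq_one_iff.1 (Nat.dvd_one.1 h5)

/-- The restriction of `b` to the range of `x ↦ x⁻¹ * b x`. -/
def resR {H : Type} [CommGroup H] (b : MulAut H) : MulAut (del b).range where
  toFun y := ⟨b y, by
    obtain ⟨x, hx⟩ := y.2
    refine ⟨b x, ?_⟩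
    rw [← hx, del_apply, del_apply, map_mul, map_inv]⟩
  invFun y := ⟨b.symm y, by
    obtain ⟨x, hx⟩ := y.2
    refine ⟨b.symm x, ?_⟩
    rw [← hx, del_apply, del_apply, map_mul, map_inv]
    simp⟩
  left_inv y := Subtype.ext (by simp)
  right_inv y := Subtype.ext (by simp)
  map_mul' x y := Subtype.ext (by simp)

theorem resR_coe {H : Type} [CommGroup H] (b : MulAut H) (y : (del b).range) :
    ((resR b y : (del b).range) : H) = b y := rfl

theorem resR_pow {H : Type} [CommGroup H] (b : MulAut H) (k : ℕ) (y : (del b).range) :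
    (((resR b ^ k) y : (del b).range) : H) = (b ^ k) (y : H) := by
  induction k generalizing y with
  | zero => rfl
  | succ k ih => rw [pow_succ, pow_succ, MulAut.mul_apply, MulAut.mul_apply, ih, resR_coe]

theorem completeC {B w : ℕ} [hwF : Fact w.Prime] (hB : B.Prime) (h3 : 3 < B)
    (hwB : (w : ZMod B) = -1) (ζ : (GaloisField w 2)ˣ) (hζ : orderOf ζ = B)
    (H : Type) [CommGroup H] (hH : Nat.card H = w ^ 3)
    (b : MulAut H) (hb : b ^ B = 1) (hb1 : b ≠ 1) :
    ∃ (u : (ZMod B)ˣ) (e : H ≃* (Multiplicative (GaloisField w 2) × Multiplicative (ZMod w))),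
      ∀ x, e (b x) = ((bet ζ) ^ (u : ZMod B).val) (e x) := by
  have hw : w.Prime := Fact.out
  have hfin : Finite H := Nat.finite_of_card_ne_zero (by
    rw [hH]; exact pow_ne_zero _ hw.ne_zero)
  have hF : Nat.card (fixS b) = w := card_fix hB hw h3 hwB H hH b hb hb1
  have hI : Nat.card (del b).range = w ^ 2 := by
    have h := card_range b
    rw [hH, hF, pow_succ] at h
    exact (Nat.eq_of_mul_eq_mul_right hw.pos h).symm
  have hgB : resR b ^ B = 1 := by
    refine MulEquiv.ext fun y => Subtype.ext ?_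
    rw [resR_pow, hb]
    rfl
  have hg1 : resR b ≠ 1 := by
    intro h
    have h1 : ∀ y : (del b).range, y = 1 := by
      intro y
      refine Subtype.ext (inter hB hw hwB H hH b hb y y.2 ?_)
      rw [mem_fixS, ← resR_coe, h]
      rfl
    have h2 : Nat.card (del b).range = 1 :=
      Nat.card_eq_one_iff_unique.2 ⟨⟨fun x y => by rw [h1 x, h1 y]⟩, ⟨1⟩⟩
    rw [hI] at h2
    have := hw.one_lt
    nlinarith
  obtain ⟨eI, ζ', hζ', he⟩ := sing (p := w) (r := B) (d := 2) hB (ne_of hB hwB) (by norm_num)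
    (by norm_num) (by rw [hwB]; ring) (by
      intro j h0 h2
      have : j = 1 := by omega
      rw [this, pow_one, hwB]
      exact one_ne_neg_one h3) (del b).range hI (resR b) hgB hg1
  -- ζ' is a power of ζ
  have hprim : IsPrimitiveRoot (ζ : GaloisField w 2) B := by
    rw [IsPrimitiveRoot.coe_units_iff, ← hζ]
    exact IsPrimitiveRoot.orderOf ζ
  have hζ'B : ((ζ' : GaloisField w 2)) ^ B = 1 := by
    rw [← Units.val_pow_eq_pow_val, ← hζ', pow_orderOf_eq_one, Units.val_one]
  have : NeZero B := ⟨hB.ne_zero⟩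
  obtain ⟨i, hiB, hi⟩ := hprim.eq_pow_of_pow_eq_one hζ'B
  have hi0 : i ≠ 0 := by
    rintro rfl
    rw [pow_zero] at hi
    have : ζ' = 1 := Units.ext hi.symm
    rw [this, orderOf_one] at hζ'
    exact hB.one_lt.ne hζ'
  have hcop : Nat.Coprime i B :=
    ((Nat.Prime.coprime_iff_not_dvd hB).2 (fun h => hi0
      (Nat.eq_zero_of_dvd_of_lt h hiB))).symm
  set u : (ZMod B)ˣ := ZMod.unitOfCoprime i hcop with hu
  have huv : (u : ZMod B).val = i := by
    rw [hu, ZMod.coe_unitOfCoprime, ZMod.val_natCast, Nat.mod_eq_of_lt hiB]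
  let eF : fixS b ≃* Multiplicative (ZMod w) :=
    mulEquivOfPrimeCardEq hF (show Nat.card (Multiplicative (ZMod w)) = w from Nat.card_zmod w)
  let m : (del b).range × fixS b →* H := ((del b).range.subtype).coprod (fixS b).subtype
  have hmi : Function.Injective m := by
    rw [injective_iff_map_eq_one]
    rintro ⟨y, z⟩ hyz
    have h1 : (y : H) * (z : H) = 1 := hyz
    have h2 : (y : H) = ((z⁻¹ : fixS b) : H) := by
      rw [Subgroup.coe_inv]
      exact eq_inv_of_mul_eq_one_left h1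
    have hy : (y : H) = 1 := inter hB hw hwB H hH b hb y y.2 (by
      rw [h2]
      exact (z⁻¹).2)
    have hz : (z : H) = 1 := by rwa [hy, one_mul] at h1
    exact Prod.ext (Subtype.ext hy) (Subtype.ext hz)
  have hmb : Function.Bijective m := by
    rw [Nat.bijective_iff_injective_and_card]
    refine ⟨hmi, ?_⟩
    rw [Nat.card_prod, hI, hF, hH]
    ring
  let E : ((del b).range × fixS b) ≃* H := MulEquiv.ofBijective m hmb
  have hE : ∀ y : (del b).range, ∀ z : fixS b, E (y, z) = (y : H) * (z : H) := fun _ _ => rfl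
  refine ⟨u, E.symm.trans (MulEquiv.prodCongr eI eF), ?_⟩
  intro x
  obtain ⟨⟨y, z⟩, rfl⟩ := E.surjective x
  have hbx : b (E (y, z)) = E (resR b y, z) := by
    rw [hE, hE, map_mul, resR_coe]
    congr 1
    exact z.2
  rw [hbx, huv, bet_pow]
  rw [MulEquiv.trans_apply, MulEquiv.trans_apply, MulEquiv.symm_apply_apply,
    MulEquiv.symm_apply_apply, bet_apply]
  refine Prod.ext ?_ rfl
  show eI (resR b y) = Multiplicative.ofAdd (((ζ ^ i : (GaloisField w 2)ˣ) : GaloisField w 2) *
    Multiplicative.toAdd (eI y))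
  rw [Units.val_pow_eq_pow_val, hi, ← he y]
  rfl

theorem complete {B w : ℕ} [hwF : Fact w.Prime] (hB : B.Prime) (h3 : 3 < B)
    (hwB : (w : ZMod B) = -1) (ζ : (GaloisField w 2)ˣ) (hζ : orderOf ζ = B)
    (H : Type) [hG : Group H] (hH : Nat.card H = w ^ 3) (hc : ∀ x y : H, x * y = y * x)
    (b : MulAut H) (hb : b ^ B = 1) (hb1 : b ≠ 1) :
    ∃ (u : (ZMod B)ˣ) (e : H ≃* (Multiplicative (GaloisField w 2) × Multiplicative (ZMod w))),
      ∀ x, e (b x) = ((bet ζ) ^ (u : ZMod B).val) (e x) := by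
  let _ : CommGroup H := { hG with mul_comm := hc }
  exact completeC hB h3 hwB ζ hζ H hH b hb hb1

end E7c

/-- GN7c: abelian groups of order `w ^ 3` with an automorphism of order `B`. -/
theorem eab_unique {B w : ℕ} (hB : B.Prime) (hw : w.Prime) (h3 : 3 < B)
    (hwB : (w : ZMod B) = -1) : ∃ (A : Type) (_ : CommGroup A) (β : MulAut A),
    Nat.card A = w ^ 3 ∧ β ^ B = 1 ∧ β ≠ 1 ∧
    (∃ e : A ≃* A, ∀ x, e (β⁻¹ x) = β (e x)) ∧
    (∀ u : (ZMod B)ˣ, (∃ (e : A ≃* A), ∀ x,
      e ((β ^ (u : ZMod B).val) x) = β (e x)) → u = 1 ∨ u = -1) ∧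
    ∀ (H : Type) [Group H], Nat.card H = w ^ 3 → (∀ x y : H, x * y = y * x) →
      ∀ b : MulAut H, b ^ B = 1 → b ≠ 1 →
      ∃ (u : (ZMod B)ˣ) (e : H ≃* A), ∀ x, e (b x) = (β ^ (u : ZMod B).val) (e x) := by
  have : Fact w.Prime := ⟨hw⟩
  obtain ⟨ζ, hζ⟩ := E7c.exists_root (w := w) hB hwB
  have hζB : ζ ^ B = 1 := by rw [← hζ]; exact pow_orderOf_eq_one ζ
  have hζ1 : ζ ≠ 1 := by
    rintro rfl
    rw [orderOf_one] at hζ
    exact hB.one_lt.ne hζ
  refine ⟨Multiplicative (GaloisField w 2) × Multiplicative (ZMod w), inferInstance,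
    E7c.bet ζ, ?_, ?_, E7c.bet_ne_one ζ hζ1, E7c.exists_inv hwB ζ hζB, ?_, ?_⟩
  · rw [Nat.card_prod]
    have h1 : Nat.card (Multiplicative (GaloisField w 2)) = w ^ 2 :=
      GaloisField.card w 2 two_ne_zero
    have h2 : Nat.card (Multiplicative (ZMod w)) = w := Nat.card_zmod w
    rw [h1, h2]
    ring
  · rw [E7c.bet_pow, hζB, E7c.bet_one]
  · rintro u ⟨e, he⟩
    exact E7c.unit_cond hB hwB ζ hζ u e he
  · intro H _ hH hc b hb hb1
    exact E7c.complete hB h3 hwB ζ hζ H hH hc b hb hb1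

end Pool.Agent.helper74.GN
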